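import Pool.Agent.Helper67.DF.Stmts

/-!
Averages (project DF).
-/

open Finset MeasureTheory

namespace Pool.Agent.Helper46.DF

open Pool.Agent.Helper67.BT (E PG Sp PG_const PG_add PG_sub PG_mul PG_const_mul PG_pow PG_sum
  PG_inner PG_neg PG_div_const PG_abs)
open Pool.Agent.Helper67.DF

variable {n k : ℕ} {a : Fin n → E k} {U : Fin n → ℝ → ℝ}

/-- the standing assumptions on the family -/
def AvOK (a : Fin n → E k) (U : Fin n → ℝ → ℝ) : Prop :=
  (∀ F : E k → ℝ, PG F → Integrable fun x => F x * Real.exp (-(VV a U x))) ∧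
    0 < J a U fun _ => 1

theorem Av_one (h : AvOK a U) : Av a U (fun _ => 1) = 1 := div_self h.2.ne'

theorem J_add (h : AvOK a U) {F G : E k → ℝ} (hF : PG F) (hG : PG G) :
    J a U (fun x => F x + G x) = J a U F + J a U G := by
  unfold J
  rw [← integral_add (h.1 _ hF) (h.1 _ hG)]
  congr 1
  ext x
  ring

theorem J_const_mul (r : ℝ) (F : E k → ℝ) : J a U (fun x => r * F x) = r * J a U F := by
  unfold J
  rw [← integral_const_mul]
  congr 1
  ext x
  ring

theorem J_congr {F G : E k → ℝ} (h : ∀ x, F x = G x) : J a U F = J a U G := by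
  rw [show F = G from funext h]

theorem Av_congr {F G : E k → ℝ} (h : ∀ x, F x = G x) : Av a U F = Av a U G := by
  rw [show F = G from funext h]

theorem Av_add (h : AvOK a U) {F G : E k → ℝ} (hF : PG F) (hG : PG G) :
    Av a U (fun x => F x + G x) = Av a U F + Av a U G := by
  unfold Av
  rw [← add_div, J_add h hF hG]

theorem Av_const_mul (r : ℝ) (F : E k → ℝ) : Av a U (fun x => r * F x) = r * Av a U F := by
  unfold Av
  rw [← mul_div_assoc, J_const_mul]

theorem Av_mul_const (r : ℝ) (F : E k → ℝ) : Av a U (fun x => F x * r) = Av a U F * r := by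
  simp only [mul_comm _ r, Av_const_mul]

theorem Av_neg (F : E k → ℝ) : Av a U (fun x => -F x) = -Av a U F := by
  have := Av_const_mul (a := a) (U := U) (-1) F
  simpa using this

theorem Av_sub (h : AvOK a U) {F G : E k → ℝ} (hF : PG F) (hG : PG G) :
    Av a U (fun x => F x - G x) = Av a U F - Av a U G := by
  have := Av_add h hF (PG_neg hG)
  simpa only [sub_eq_add_neg, Av_neg] using this

theorem Av_const (h : AvOK a U) (r : ℝ) : Av a U (fun _ => r) = r := by
  have := Av_const_mul (a := a) (U := U) r (fun _ => 1)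
  simp only [mul_one, Av_one h] at this
  exact this

theorem Av_sum (h : AvOK a U) {ι : Type} (s : Finset ι) {F : ι → E k → ℝ}
    (hF : ∀ i ∈ s, PG (F i)) :
    Av a U (fun x => ∑ i ∈ s, F i x) = ∑ i ∈ s, Av a U (F i) := by
  classical
  induction s using Finset.induction_on with
  | empty => simp [Av_const h]
  | insert i s ha ih =>
    simp only [Finset.sum_insert ha]
    rw [Av_add h (hF i (Finset.mem_insert_self i s))
      (PG_sum s fun j hj => hF j (Finset.mem_insert_of_mem hj)),
      ih fun j hj => hF j (Finset.mem_insert_of_mem hj)]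

theorem Av_mono (h : AvOK a U) {F G : E k → ℝ} (hF : PG F) (hG : PG G)
    (hFG : ∀ x, F x ≤ G x) : Av a U F ≤ Av a U G := by
  unfold Av
  refine div_le_div_of_nonneg_right ?_ h.2.le
  exact integral_mono (h.1 _ hF) (h.1 _ hG) fun x =>
    mul_le_mul_of_nonneg_right (hFG x) (Real.exp_pos _).le

theorem Av_nonneg (h : AvOK a U) {F : E k → ℝ} (hF : ∀ x, 0 ≤ F x) : 0 ≤ Av a U F :=
  div_nonneg (integral_nonneg fun x => mul_nonneg (hF x) (Real.exp_pos _).le) h.2.le

theorem Av_CS (h : AvOK a U) {F G : E k → ℝ} (hF : PG F) (hG : PG G) :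
    (Av a U fun x => F x * G x) ^ 2 ≤ (Av a U fun x => F x ^ 2) * Av a U fun x => G x ^ 2 := by
  set A := Av a U fun x => F x ^ 2
  set B := Av a U fun x => F x * G x
  set D := Av a U fun x => G x ^ 2
  have hq : ∀ t : ℝ, 0 ≤ A * (t * t) + (2 * B) * t + D := by
    intro t
    have h1 : 0 ≤ Av a U fun x => (t * F x + G x) ^ 2 := Av_nonneg h fun x => sq_nonneg _
    have h2 : (fun x => (t * F x + G x) ^ 2) =
        fun x => (t * t) * F x ^ 2 + ((2 * t) * (F x * G x) + G x ^ 2) := by
      ext x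
      ring
    rw [h2, Av_add h (PG_const_mul _ (PG_pow hF 2))
      (PG_add (PG_const_mul _ (PG_mul hF hG)) (PG_pow hG 2)),
      Av_add h (PG_const_mul _ (PG_mul hF hG)) (PG_pow hG 2), Av_const_mul,
      Av_const_mul] at h1
    calc 0 ≤ _ := h1
      _ = _ := by ring
  have := discrim_le_zero hq
  rw [discrim] at this
  nlinarith

/-- odd functions have integral zero -/
theorem J_odd (hV : ∀ x, VV a U (-x) = VV a U x) {F : E k → ℝ} (hF : ∀ x, F (-x) = -F x) :
    J a U F = 0 := by
  unfold J
  have h1 : ∫ x, F x * Real.exp (-(VV a U x)) = ∫ x, F (-x) * Real.exp (-(VV a U (-x))) :=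
    (integral_neg_eq_self (fun x => F x * Real.exp (-(VV a U x))) volume).symm
  have h2 : ∫ x, F (-x) * Real.exp (-(VV a U (-x))) = -∫ x, F x * Real.exp (-(VV a U x)) := by
    rw [← integral_neg]
    congr 1
    ext x
    rw [hF, hV]
    ring
  linarith [h1.trans h2]

theorem Av_odd (hV : ∀ x, VV a U (-x) = VV a U x) {F : E k → ℝ} (hF : ∀ x, F (-x) = -F x) :
    Av a U F = 0 := by
  unfold Av
  rw [J_odd hV hF, zero_div]

end Pool.Agent.Helper46.DF
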