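import Pool.Agent.Helper46.DF.Ok

/-!
Rows CR and LB (project DF).
-/

open Finset MeasureTheory

namespace Pool.Agent.Helper46.DF

open Pool.Agent.Helper67.BT (E PG Sp PG_const PG_add PG_sub PG_mul PG_const_mul PG_pow PG_sum
  PG_inner PG_neg PG_div_const PG_abs comp_line inner_line)
open Pool.Agent.Helper67.DF

theorem st_CR (hIG : ST_IG) (hUC : ST_UC) (hWB : ST_WB) (hIBP : ST_IBP) (hBLL : ST_BLL) :
    ST_CR := by
  intro n k a c s e P
  have O := ok hIG hUC P.c0 P.sp
  have hPF := hUC n c P.c0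
  have hs : ∀ l, 0 < s l := s_pos hWB P
  constructor
  · -- integration by parts
    have h1 : (Av a (cf (Uc c)) fun x => inner ℝ e x *
        ∑ l, Pc c (inner ℝ (a l) x) * inner ℝ (a l) e) = ‖e‖ ^ 2 := by
      have h2 := hIBP n k a _ _ _ _ _ _ P.sp hPF e (fun x => inner ℝ e x) (fun _ => inner ℝ e e)
        (PG_inner e) (PG_const _) fun x => by
          have := comp_line (f := fun y => y) (f' := 1) e x e (hasDerivAt_id _)
          rw [one_mul] at this
          exact this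
      have h3 := Av_const O.av (‖e‖ ^ 2)
      unfold Av at h3 ⊢
      rw [← h3]
      congr 1
      rw [← real_inner_self_eq_norm_sq]
      exact h2
    have hPGd : PG fun x : E k => ∑ l, Pc c (inner ℝ (a l) x) * inner ℝ (a l) e :=
      PG_sum _ fun l _ => PG_mul (O.pgP l) (PG_const _)
    have h4 : (Av a (cf (Uc c)) fun x => (∑ l, Pc c (inner ℝ (a l) x) * inner ℝ (a l) e) ^ 2) =
        ‖e‖ ^ 2 := by
      have h2 := hIBP n k a _ _ _ _ _ _ P.sp hPF e
        (fun x => ∑ l, Pc c (inner ℝ (a l) x) * inner ℝ (a l) e)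
        (fun x => ∑ l, Wc c (inner ℝ (a l) x) * inner ℝ (a l) e * inner ℝ (a l) e)
        hPGd (PG_sum _ fun l _ => PG_mul (PG_mul (O.pgW l) (PG_const _)) (PG_const _)) fun x => by
          have h5 : ∀ l ∈ (univ : Finset (Fin n)), HasDerivAt
              (fun t : ℝ => Pc c (inner ℝ (a l) (x + t • e)) * inner ℝ (a l) e)
              (Wc c (inner ℝ (a l) x) * inner ℝ (a l) e * inner ℝ (a l) e) 0 := fun l _ =>
            (comp_line (a l) x e (hPF.dp l _)).mul_const _
          exact HasDerivAt.fun_sum h5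
      have h6 : (Av a (cf (Uc c)) fun x =>
          ∑ l, Wc c (inner ℝ (a l) x) * inner ℝ (a l) e * inner ℝ (a l) e) = ‖e‖ ^ 2 := by
        rw [Av_sum O.av _ fun l _ => PG_mul (PG_mul (O.pgW l) (PG_const _)) (PG_const _),
          ← iso_sq P.iso]
        refine Finset.sum_congr rfl fun l _ => ?_
        rw [Av_mul_const, Av_mul_const, ← P.sd l]
        ring
      rw [← h6]
      unfold Av
      rw [← h2]
      congr 2
      ext x
      exact sq _
    have h7 := Av_CS O.av (PG_inner e) hPGd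
    rw [h1, h4] at h7
    rcases eq_or_lt_of_le (sq_nonneg ‖e‖) with h8 | h8
    · rw [← h8]
      exact Av_nonneg O.av fun x => sq_nonneg _
    · refine le_of_mul_le_mul_right ?_ h8
      calc ‖e‖ ^ 2 * ‖e‖ ^ 2 = (‖e‖ ^ 2) ^ 2 := by ring
        _ ≤ _ := h7
  · have h1 := BL_odd hIG hUC hBLL P.c0 P.sp (f := fun x => inner ℝ e x)
      (b := fun l _ => s l * inner ℝ (a l) e) (PG_inner e) (fun l => PG_const _)
      (TH_lin P.iso e) fun x => inner_neg_right _ _
    refine h1.trans ?_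
    rw [← iso_sq P.iso, Finset.mul_sum]
    refine Finset.sum_le_sum fun l _ => ?_
    rw [Av_const_mul]
    have h2 := Av_inv hWB P l
    have h3 : 0 ≤ s l * inner ℝ (a l) e ^ 2 := mul_nonneg (hs l).le (sq_nonneg _)
    calc (s l * inner ℝ (a l) e) ^ 2 * Av a (cf (Uc c)) (fun x => (Wc c (inner ℝ (a l) x))⁻¹)
        = s l * inner ℝ (a l) e ^ 2 *
          (s l * Av a (cf (Uc c)) fun x => (Wc c (inner ℝ (a l) x))⁻¹) := by ring
      _ ≤ s l * inner ℝ (a l) e ^ 2 * (27 / 25) := mul_le_mul_of_nonneg_left h2 h3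
      _ = _ := by ring

theorem st_LB (hIG : ST_IG) (hUC : ST_UC) (hWB : ST_WB) (hCR : ST_CR) (hLM : ST_LM) :
    ST_LB := by
  intro n k a c s v P
  have O := ok hIG hUC P.c0 P.sp
  have hPF := hUC n c P.c0
  have hs : ∀ l, 0 < s l := s_pos hWB P
  rw [Av_sum O.av _ fun l _ => PG_mul (O.pgW l) (PG_pow (PG_inner _) 2)]
  unfold NN
  rw [Finset.mul_sum]
  refine Finset.sum_le_sum fun l _ => ?_
  set N := nv s v a l
  have h1 := Av_CSw O.av (PG_abs (PG_inner N)) (PG_const 1) (O.pgW l) (O.pgI l)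
    fun x => Wc_pos P.c0 _
  simp only [mul_one, one_pow, sq_abs] at h1
  have h2 := (hLM n k a _ _ _ _ _ _ N P.sp hPF).1
  have h3 := (hCR n k a c s N P).1
  have h4 := Av_inv hWB P l
  set A := Av a (cf (Uc c)) fun x => |inner ℝ N x|
  set L := Av a (cf (Uc c)) fun x => Wc c (inner ℝ (a l) x) * inner ℝ N x ^ 2
  set I := Av a (cf (Uc c)) fun x => (Wc c (inner ℝ (a l) x))⁻¹
  have hL : 0 ≤ L := Av_nonneg O.av fun x => mul_nonneg (Wc_pos P.c0 _).le (sq_nonneg _)
  have h5 : ‖N‖ ^ 2 ≤ 2 * (L * I) := by linarith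
  calc 25 / 54 * (s l * ‖N‖ ^ 2) ≤ 25 / 54 * (s l * (2 * (L * I))) := by
        refine mul_le_mul_of_nonneg_left ?_ (by norm_num)
        exact mul_le_mul_of_nonneg_left h5 (hs l).le
    _ = 25 / 27 * L * (s l * I) := by ring
    _ ≤ 25 / 27 * L * (27 / 25) := mul_le_mul_of_nonneg_left h4 (by positivity)
    _ = L := by ring

end Pool.Agent.Helper46.DF
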