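import Pool.Agent.Helper46.DF.TH

/-!
The potential `|t|^(11/5) + c t^2` (project DF).
-/

open Finset MeasureTheory

namespace Pool.Agent.Helper46.DF

open Pool.Agent.Helper67.BT (E PG Sp PG_const PG_add PG_sub PG_mul PG_const_mul PG_pow PG_sum
  PG_inner PG_neg PG_div_const PG_abs)
open Pool.Agent.Helper67.DF

theorem Wc_pos {c : ℝ} (hc : 0 < c) (t : ℝ) : 0 < Wc c t := by
  unfold Wc
  have := Real.rpow_nonneg (abs_nonneg t) (1 / 5)
  linarith

theorem Wc_neg (c t : ℝ) : Wc c (-t) = Wc c t := by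
  unfold Wc
  rw [abs_neg]

theorem Pc_neg (c t : ℝ) : Pc c (-t) = -Pc c t := by
  unfold Pc
  rw [abs_neg]
  ring

variable {n k : ℕ}

/-- consequences of the standing assumptions -/
structure Ok (c : ℝ) (a : Fin n → E k) : Prop where
  c0 : 0 < c
  av : AvOK a (cf (Uc c))
  ev : ∀ x, VV a (cf (Uc c)) (-x) = VV a (cf (Uc c)) x
  pgP : ∀ l, PG fun x : E k => Pc c (inner ℝ (a l) x)
  pgW : ∀ l, PG fun x : E k => Wc c (inner ℝ (a l) x)
  pgI : ∀ l, PG fun x : E k => (Wc c (inner ℝ (a l) x))⁻¹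

theorem ok (hIG : ST_IG) (hUC : ST_UC) {c : ℝ} {a : Fin n → E k} (hc : 0 < c) (hs : Sp a) :
    Ok c a := by
  obtain ⟨δ, _, h⟩ := hIG n k a hs (2 * c) (by linarith)
  obtain ⟨_, _, h3, h4, h5, h6⟩ := h _ _ _ _ _ (hUC n c hc)
  exact ⟨hc, ⟨h5, h6⟩, h3, fun l => (h4 l).1, fun l => (h4 l).2.1, fun l => (h4 l).2.2⟩

/-- weighted Cauchy-Schwarz inequality -/
theorem Av_CSw {a : Fin n → E k} {U : Fin n → ℝ → ℝ} (h : AvOK a U) {F G W : E k → ℝ}
    (hF : PG F) (hG : PG G) (hW : PG W) (hI : PG fun x => (W x)⁻¹) (h0 : ∀ x, 0 < W x) :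
    (Av a U fun x => F x * G x) ^ 2 ≤
      (Av a U fun x => W x * F x ^ 2) * Av a U fun x => (W x)⁻¹ * G x ^ 2 := by
  set A := Av a U fun x => W x * F x ^ 2
  set B := Av a U fun x => F x * G x
  set D := Av a U fun x => (W x)⁻¹ * G x ^ 2
  have hq : ∀ t : ℝ, 0 ≤ A * (t * t) + (2 * B) * t + D := by
    intro t
    have h1 : 0 ≤ Av a U fun x => W x * (t * F x + (W x)⁻¹ * G x) ^ 2 :=
      Av_nonneg h fun x => mul_nonneg (h0 x).le (sq_nonneg _)
    have h2 : (fun x => W x * (t * F x + (W x)⁻¹ * G x) ^ 2) =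
        fun x => (t * t) * (W x * F x ^ 2) + ((2 * t) * (F x * G x) + (W x)⁻¹ * G x ^ 2) := by
      ext x
      have := (h0 x).ne'
      field_simp
      ring
    rw [h2, Av_add h (PG_const_mul _ (PG_mul hW (PG_pow hF 2)))
      (PG_add (PG_const_mul _ (PG_mul hF hG)) (PG_mul hI (PG_pow hG 2))),
      Av_add h (PG_const_mul _ (PG_mul hF hG)) (PG_mul hI (PG_pow hG 2)), Av_const_mul,
      Av_const_mul] at h1
    calc 0 ≤ _ := h1
      _ = _ := by ring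
  have := discrim_le_zero hq
  rw [discrim] at this
  nlinarith

/-- averages of inverses -/
theorem Av_inv (hWB : ST_WB) {c : ℝ} {s : Fin n → ℝ} {a : Fin n → E k} (P : Pos c s a)
    (l : Fin n) : s l * (Av a (cf (Uc c)) fun x => (Wc c (inner ℝ (a l) x))⁻¹) ≤ 27 / 25 := by
  obtain ⟨_, h1, _⟩ := hWB n k a c l (s l) P.sp P.c0 (P.sd l)
  rw [← Av_const_mul]
  exact h1

theorem s_pos (hWB : ST_WB) {c : ℝ} {s : Fin n → ℝ} {a : Fin n → E k} (P : Pos c s a)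
    (l : Fin n) : 0 < s l := (hWB n k a c l (s l) P.sp P.c0 (P.sd l)).1

/-- the Brascamp-Lieb inequality for odd functions and averages -/
theorem BL_odd (hIG : ST_IG) (hUC : ST_UC) (hBLL : ST_BLL) {c : ℝ} {a : Fin n → E k}
    (hc : 0 < c) (hs : Sp a) {f : E k → ℝ} {b : Fin n → E k → ℝ} (hf : PG f)
    (hb : ∀ l, PG (b l)) (hT : TH a (1 / 5) f b) (hodd : ∀ x, f (-x) = -f x) :
    (Av a (cf (Uc c)) fun x => f x ^ 2) ≤
      ∑ l, Av a (cf (Uc c)) fun x => b l x ^ 2 * (Wc c (inner ℝ (a l) x))⁻¹ := by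
  have O := ok hIG hUC hc hs
  have h1 := hBLL n k a _ _ _ _ _ _ f b hs (hUC n c hc) hf hb hT
  rw [J_odd O.ev hodd] at h1
  have h2 : 0 < J a (cf (Uc c)) fun _ => 1 := O.av.2
  have h3 : J a (cf (Uc c)) (fun x => f x ^ 2) ≤
      J a (cf (Uc c)) fun x => ∑ l, b l x ^ 2 / Wc c (inner ℝ (a l) x) := by
    refine le_of_mul_le_mul_left ?_ h2
    have h4 : ∀ y : ℝ, y - 0 ^ 2 = y := fun y => by ring
    rw [h4] at h1
    exact h1
  have h5 : (Av a (cf (Uc c)) fun x => f x ^ 2) ≤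
      Av a (cf (Uc c)) fun x => ∑ l, b l x ^ 2 / Wc c (inner ℝ (a l) x) :=
    div_le_div_of_nonneg_right h3 h2.le
  refine h5.trans (le_of_eq ?_)
  simp only [div_eq_mul_inv]
  rw [Av_sum O.av _ fun l _ => PG_mul (PG_pow (hb l) 2) (O.pgI l)]

end Pool.Agent.Helper46.DF
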