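import Pool.Agent.Helper46.DF.Ok

/-!
Rows QB and ASM (project DF).
-/

open Finset MeasureTheory

namespace Pool.Agent.Helper46.DF

open Pool.Agent.Helper67.BT (E PG Sp PG_const PG_add PG_sub PG_mul PG_const_mul PG_pow PG_sum
  PG_inner PG_neg PG_div_const PG_abs)
open Pool.Agent.Helper67.DF

theorem st_QB (hIG : ST_IG) (hUC : ST_UC) (hWB : ST_WB) (hRPI : ST_RPI) (hGAU : ST_GAU)
    (hPHF : ST_PHF) : ST_QB := by
  intro n k a c s v P
  have O := ok hIG hUC P.c0 P.sp
  have hPF := hUC n c P.c0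
  have hs : ∀ l, 0 < s l := s_pos hWB P
  obtain ⟨L, hL0, hL⟩ := hPHF n k s v a (2 * c) hs (by linarith [P.c0])
  have h1 := hRPI n k a (mv s v a) (ph s v a) _ L _ _ _ _ _ P.sp hL0
    (hGAU n k s v a hs P.iso) hL hPF
  have h2 : (Av a (cf (Uc c)) fun x => ∑ l, ph s v a l (Wc c (inner ℝ (a l) x))) ≤
      Av a (cf (Uc c)) fun x => ∑ l, Pc c (inner ℝ (a l) x) * inner ℝ (mv s v a l) x :=
    div_le_div_of_nonneg_right h1 O.av.2.le
  refine le_trans ?_ h2
  -- the two functions of one linear form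
  have pgq : ∀ l, PG fun x : E k => Wc c (inner ℝ (a l) x) / s l := fun l =>
    PG_div_const (O.pgW l) _
  have pgi : ∀ l, PG fun x : E k => s l / Wc c (inner ℝ (a l) x) := fun l => by
    simp only [div_eq_mul_inv]
    exact PG_const_mul _ (O.pgI l)
  have pgg : ∀ l, PG fun x : E k => Wc c (inner ℝ (a l) x) / s l - 2 +
      s l / Wc c (inner ℝ (a l) x) := fun l =>
    PG_add (PG_sub (pgq l) (PG_const _)) (pgi l)
  have key : ∀ l, 83 / 50 * (s l * ‖nv s v a l‖ ^ 2) - 139 / 125 * Cl s v a l ≤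
      Av a (cf (Uc c)) fun x => ph s v a l (Wc c (inner ℝ (a l) x)) := by
    intro l
    obtain ⟨_, w1, w2, w3, _⟩ := hWB n k a c l (s l) P.sp P.c0 (P.sd l)
    set R := s l * ‖nv s v a l‖ ^ 2 with hR
    set T := Cl s v a l with hT
    have hR0 : 0 ≤ R := mul_nonneg (hs l).le (sq_nonneg _)
    have hT0 : 0 ≤ T := Finset.sum_nonneg fun j _ =>
      mul_nonneg (mul_nonneg (hs j).le (hs l).le) (sq_nonneg _)
    have e0 : (fun x => ph s v a l (Wc c (inner ℝ (a l) x))) = fun x : E k =>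
        ((7 * R + 6 / 5 * T) + (-(3 * R)) * (s l / Wc c (inner ℝ (a l) x))) +
        ((-(2 * R + 9 / 5 * T)) * (Wc c (inner ℝ (a l) x) / s l) +
          ((-(5 / 2 * R)) * (Wc c (inner ℝ (a l) x) / s l - 2 +
            s l / Wc c (inner ℝ (a l) x)) ^ 2 +
            (-(2 / 5 * T)) * (s l / Wc c (inner ℝ (a l) x)) ^ 2)) := by
      ext x
      unfold ph
      rw [← hR, ← hT]
      ring
    have a1 : (Av a (cf (Uc c)) fun x => Wc c (inner ℝ (a l) x) / s l) = 1 := by
      simp only [div_eq_mul_inv]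
      rw [Av_mul_const, ← P.sd l, mul_inv_cancel₀ (hs l).ne']
    rw [e0, Av_add O.av (PG_add (PG_const _) (PG_const_mul _ (pgi l)))
      (PG_add (PG_const_mul _ (pgq l)) (PG_add (PG_const_mul _ (PG_pow (pgg l) 2))
        (PG_const_mul _ (PG_pow (pgi l) 2)))),
      Av_add O.av (PG_const _) (PG_const_mul _ (pgi l)), Av_const O.av, Av_const_mul,
      Av_add O.av (PG_const_mul _ (pgq l)) (PG_add (PG_const_mul _ (PG_pow (pgg l) 2))
        (PG_const_mul _ (PG_pow (pgi l) 2))), Av_const_mul, a1,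
      Av_add O.av (PG_const_mul _ (PG_pow (pgg l) 2)) (PG_const_mul _ (PG_pow (pgi l) 2)),
      Av_const_mul, Av_const_mul]
    nlinarith [mul_nonneg hR0 (sub_nonneg.2 w1), mul_nonneg hR0 (sub_nonneg.2 w3),
      mul_nonneg hT0 (sub_nonneg.2 w2)]
  have pgph : ∀ l ∈ (univ : Finset (Fin n)),
      PG fun x : E k => ph s v a l (Wc c (inner ℝ (a l) x)) := by
    intro l _
    unfold ph
    exact PG_sub (PG_const_mul _ (PG_sub (PG_sub (PG_sub (PG_const _) (pgi l))
      (PG_const_mul _ (pgg l))) (PG_const_mul _ (PG_pow (pgg l) 2))))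
      (PG_const_mul _ (PG_add (pgq l) (PG_const_mul _ (PG_sub (PG_add (PG_pow (pgi l) 2)
        (PG_const_mul _ (pgq l))) (PG_const _)))))
  rw [Av_sum O.av _ pgph]
  have h3 : ∑ l, (83 / 50 * (s l * ‖nv s v a l‖ ^ 2) - 139 / 125 * Cl s v a l) =
      137 / 250 * NN s v a := by
    rw [Finset.sum_sub_distrib, ← Finset.mul_sum, ← Finset.mul_sum, Cl_sum P.iso]
    unfold NN
    ring
  rw [← h3]
  exact Finset.sum_le_sum fun l _ => key l

theorem st_ASM (hWB : ST_WB) (hDID : ST_DID) (hQB : ST_QB) (hLB : ST_LB) (hVB : ST_VB) :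
    ST_ASM := by
  intro n k a c s v P
  have hs : ∀ l, 0 < s l := s_pos hWB P
  have h1 := hDID n k a c s v P
  have h2 := hQB n k a c s v P
  have h3 := hLB n k a c s v P
  have h4 := hVB n k a c s v P
  have h5 : 0 ≤ NN s v a := NN_nonneg hs
  linarith

end Pool.Agent.Helper46.DF
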