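import Pool.Agent.Helper46.DF.Av

/-!
Linear algebra, derivatives (project DF).
-/

open Finset MeasureTheory

namespace Pool.Agent.Helper46.DF

open Pool.Agent.Helper67.BT (E PG Sp PG_const PG_add PG_sub PG_mul PG_const_mul PG_pow PG_sum
  PG_inner PG_neg PG_div_const PG_abs)
open Pool.Agent.Helper67.DF

variable {n k : ℕ} {a : Fin n → E k} {s v : Fin n → ℝ}

theorem inner_AA (x y : E k) :
    inner ℝ (AA s v a x) y = ∑ l, s l * v l * inner ℝ (a l) x * inner ℝ (a l) y := by
  unfold AA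
  rw [LinearMap.sum_apply, sum_inner]
  refine Finset.sum_congr rfl fun l _ => ?_
  rw [LinearMap.smul_apply, LinearMap.smulRight_apply, inner_smul_left, inner_smul_left]
  simp only [innerₛₗ_apply_apply, conj_trivial]
  ring

theorem AA_symm (x y : E k) : inner ℝ (AA s v a x) y = inner ℝ x (AA s v a y) := by
  rw [real_inner_comm (AA s v a y) x, inner_AA, inner_AA]
  refine Finset.sum_congr rfl fun l _ => ?_
  ring

/-- the vectors `n_l` are orthogonal to the family -/
theorem iso_nv (h : Iso s a) (x y : E k) :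
    ∑ l, s l * inner ℝ (a l) x * inner ℝ (nv s v a l) y = 0 := by
  have h1 : ∀ l, s l * inner ℝ (a l) x * inner ℝ (nv s v a l) y =
      s l * v l * inner ℝ (a l) x * inner ℝ (a l) y -
        s l * inner ℝ (a l) x * inner ℝ (a l) (AA s v a y) := by
    intro l
    unfold nv
    rw [inner_sub_left, inner_smul_left, AA_symm]
    simp only [conj_trivial]
    ring
  rw [Finset.sum_congr rfl fun l _ => h1 l, Finset.sum_sub_distrib, ← inner_AA, h x,
    AA_symm, sub_self]

theorem iso_sq (h : Iso s a) (x : E k) : ∑ l, s l * inner ℝ (a l) x ^ 2 = ‖x‖ ^ 2 := by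
  rw [← real_inner_self_eq_norm_sq, ← h x x]
  refine Finset.sum_congr rfl fun l _ => ?_
  ring

theorem iso_swap (h : Iso s a) :
    ∑ l, s l * ∑ j, s j * inner ℝ (a l) (nv s v a j) ^ 2 = NN s v a := by
  unfold NN
  simp only [Finset.mul_sum]
  rw [Finset.sum_comm]
  refine Finset.sum_congr rfl fun j _ => ?_
  rw [← iso_sq h, Finset.mul_sum]
  refine Finset.sum_congr rfl fun l _ => ?_
  ring

theorem Cl_sum (h : Iso s a) : ∑ l, Cl s v a l = NN s v a := by
  rw [← iso_swap h]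
  refine Finset.sum_congr rfl fun l _ => ?_
  unfold Cl
  rw [Finset.mul_sum]
  refine Finset.sum_congr rfl fun j _ => ?_
  ring

theorem NN_nonneg (hs : ∀ l, 0 < s l) : 0 ≤ NN s v a :=
  Finset.sum_nonneg fun l _ => mul_nonneg (hs l).le (sq_nonneg _)

/-! ### derivatives in the linear forms -/

theorem TH_sum {α : ℝ} {ι : Type} (S : Finset ι) {f : ι → E k → ℝ}
    {b : ι → Fin n → E k → ℝ} (h : ∀ j ∈ S, TH a α (f j) (b j)) :
    TH a α (fun x => ∑ j ∈ S, f j x) (fun l x => ∑ j ∈ S, b j l x) := by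
  classical
  intro R
  induction S using Finset.induction_on with
  | empty => exact ⟨0, fun x y _ _ => by simp⟩
  | insert i S ha ih =>
    obtain ⟨C, hC⟩ := ih fun j hj => h j (Finset.mem_insert_of_mem hj)
    obtain ⟨D, hD⟩ := h i (Finset.mem_insert_self i S) R
    refine ⟨D + C, fun x y hx hy => ?_⟩
    have h1 := hC x y hx hy
    have h2 := hD x y hx hy
    simp only [Finset.sum_insert ha, add_mul, Finset.sum_add_distrib]
    refine le_trans (le_of_eq ?_) ((abs_add_le _ _).trans (add_le_add h2 h1))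
    congr 1
    ring

theorem TH_const_mul {α : ℝ} (r : ℝ) {f : E k → ℝ} {b : Fin n → E k → ℝ} (h : TH a α f b) :
    TH a α (fun x => r * f x) (fun l x => r * b l x) := by
  intro R
  obtain ⟨C, hC⟩ := h R
  refine ⟨|r| * C, fun x y hx hy => ?_⟩
  have h1 := hC x y hx hy
  have h2 : r * f (x + y) - r * f x - ∑ l, r * b l x * inner ℝ (a l) y =
      r * (f (x + y) - f x - ∑ l, b l x * inner ℝ (a l) y) := by
    rw [mul_sub, mul_sub, Finset.mul_sum]
    congr 1
    refine Finset.sum_congr rfl fun l _ => ?_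
    ring
  rw [h2, abs_mul, mul_assoc]
  exact mul_le_mul_of_nonneg_left h1 (abs_nonneg _)

theorem TH_lin {α : ℝ} (hi : Iso s a) (m : E k) :
    TH a α (fun x => inner ℝ m x) (fun l _ => s l * inner ℝ (a l) m) := by
  intro R
  refine ⟨0, fun x y _ _ => ?_⟩
  rw [hi m y]
  simp only [inner_add_right]
  simp

theorem TH_base {α K : ℝ} {ψ w : ℝ → ℝ} (hψ : ∀ t h, |ψ (t + h) - ψ t - w t * h| ≤
    K * |h| ^ (1 + α)) (hα : 0 < α) (hK : 0 ≤ K) (r : ℝ) (j : Fin n) :
    TH a α (fun x => ψ (inner ℝ (a j) x) - r * inner ℝ (a j) x)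
      (fun l x => if l = j then w (inner ℝ (a j) x) - r else 0) := by
  intro R
  refine ⟨K * ‖a j‖ ^ (1 + α), fun x y _ _ => ?_⟩
  have h1 := hψ (inner ℝ (a j) x) (inner ℝ (a j) y)
  have h2 : ψ (inner ℝ (a j) (x + y)) - r * inner ℝ (a j) (x + y) -
      (ψ (inner ℝ (a j) x) - r * inner ℝ (a j) x) -
      ∑ l, (if l = j then w (inner ℝ (a j) x) - r else 0) * inner ℝ (a l) y =
      ψ (inner ℝ (a j) x + inner ℝ (a j) y) - ψ (inner ℝ (a j) x) -
        w (inner ℝ (a j) x) * inner ℝ (a j) y := by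
    rw [inner_add_right]
    simp only [ite_mul, zero_mul, Finset.sum_ite_eq', Finset.mem_univ, if_true]
    ring
  rw [h2]
  refine h1.trans ?_
  rw [mul_assoc, ← Real.mul_rpow (norm_nonneg _) (norm_nonneg _)]
  refine mul_le_mul_of_nonneg_left ?_ hK
  exact Real.rpow_le_rpow (abs_nonneg _) (abs_real_inner_le_norm _ _) (by linarith)

theorem bdd_ball {f : E k → ℝ} (hf : Continuous f) (R : ℝ) :
    ∃ C : ℝ, 0 ≤ C ∧ ∀ x, ‖x‖ ≤ R → |f x| ≤ C := by
  obtain ⟨C, hC⟩ := (isCompact_closedBall (0 : E k) R).exists_bound_of_continuousOn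
    hf.continuousOn
  refine ⟨max C 0, le_max_right _ _, fun x hx => ?_⟩
  exact (hC x (by simpa using hx)).trans (le_max_left _ _)

/-- the linear part is bounded -/
theorem lin_bd {b : Fin n → E k → ℝ} (hb : ∀ l, Continuous (b l)) (R : ℝ) :
    ∃ C : ℝ, 0 ≤ C ∧ ∀ x y, ‖x‖ ≤ R → |∑ l, b l x * inner ℝ (a l) y| ≤ C * ‖y‖ := by
  choose C hC0 hC using fun l => bdd_ball (hb l) R
  refine ⟨∑ l, C l * ‖a l‖, Finset.sum_nonneg fun l _ => mul_nonneg (hC0 l) (norm_nonneg _),
    fun x y hx => ?_⟩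
  refine (Finset.abs_sum_le_sum_abs _ _).trans ?_
  rw [Finset.sum_mul]
  refine Finset.sum_le_sum fun l _ => ?_
  rw [abs_mul, mul_assoc]
  exact mul_le_mul (hC l x hx) (abs_real_inner_le_norm _ _) (abs_nonneg _) (hC0 l)

theorem TH_mul {α : ℝ} (h1 : α ≤ 1) {f g : E k → ℝ} {b d : Fin n → E k → ℝ}
    (hf : TH a α f b) (hg : TH a α g d) (cf : Continuous f) (cg : Continuous g)
    (cb : ∀ l, Continuous (b l)) (cd : ∀ l, Continuous (d l)) :
    TH a α (fun x => f x * g x) (fun l x => f x * d l x + g x * b l x) := by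
  intro R
  obtain ⟨C, hC⟩ := hf R
  obtain ⟨D, hD⟩ := hg R
  obtain ⟨F, hF0, hF⟩ := bdd_ball cf R
  obtain ⟨G, hG0, hG⟩ := bdd_ball cg R
  obtain ⟨B, hB0, hB⟩ := lin_bd (a := a) cb R
  obtain ⟨L, hL0, hL⟩ := lin_bd (a := a) cd R
  refine ⟨|C| * G + F * |D| + B * (L * (2 * |R|) ^ (1 - α) + |D| * (2 * |R|)),
    fun x y hx hy => ?_⟩
  have hR : 0 ≤ R := (norm_nonneg x).trans hx
  have hyR : ‖y‖ ≤ 2 * |R| := by
    have h2 : y = (x + y) - x := by abel
    have h3 := norm_sub_le (x + y) x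
    rw [← h2] at h3
    have := le_abs_self R
    linarith
  have e1 := hC x y hx hy
  have e2 := hD x y hx hy
  set p := ∑ l, b l x * inner ℝ (a l) y with hp
  set q := ∑ l, d l x * inner ℝ (a l) y with hq
  have e3 : f (x + y) * g (x + y) - f x * g x -
      ∑ l, (f x * d l x + g x * b l x) * inner ℝ (a l) y =
      (f (x + y) - f x - p) * g (x + y) + f x * (g (x + y) - g x - q) +
        p * (q + (g (x + y) - g x - q)) := by
    have : ∑ l, (f x * d l x + g x * b l x) * inner ℝ (a l) y = f x * q + g x * p := by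
      rw [hp, hq, Finset.mul_sum, Finset.mul_sum, ← Finset.sum_add_distrib]
      refine Finset.sum_congr rfl fun l _ => ?_
      ring
    rw [this]
    ring
  rw [e3]
  set t := ‖y‖ ^ (1 + α) with ht
  have ht0 : 0 ≤ t := Real.rpow_nonneg (norm_nonneg _) _
  have e1' : |f (x + y) - f x - p| ≤ |C| * t :=
    e1.trans (mul_le_mul_of_nonneg_right (le_abs_self _) ht0)
  have e2' : |g (x + y) - g x - q| ≤ |D| * t :=
    e2.trans (mul_le_mul_of_nonneg_right (le_abs_self _) ht0)
  have e4 : ‖y‖ * ‖y‖ ≤ (2 * |R|) ^ (1 - α) * t := by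
    rcases eq_or_lt_of_le (norm_nonneg y) with h2 | h2
    · rw [← h2, mul_zero]
      positivity
    · have h3 : ‖y‖ * ‖y‖ = ‖y‖ ^ (1 - α) * ‖y‖ ^ (1 + α) := by
        rw [← Real.rpow_add h2]
        norm_num
        ring
      rw [h3]
      exact mul_le_mul_of_nonneg_right (Real.rpow_le_rpow h2.le hyR (by linarith)) ht0
  have e5 : |p| ≤ B * ‖y‖ := hB x y hx
  have e6 : |q| ≤ L * ‖y‖ := hL x y hx
  have g1 : |(f (x + y) - f x - p) * g (x + y)| ≤ |C| * t * G := by
    rw [abs_mul]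
    exact mul_le_mul e1' (hG _ hy) (abs_nonneg _) (by positivity)
  have g2 : |f x * (g (x + y) - g x - q)| ≤ F * (|D| * t) := by
    rw [abs_mul]
    exact mul_le_mul (hF _ hx) e2' (abs_nonneg _) hF0
  have g3 : |p * (q + (g (x + y) - g x - q))| ≤
      B * (L * ((2 * |R|) ^ (1 - α) * t) + |D| * (2 * |R|) * t) := by
    rw [abs_mul]
    have h2 : |q + (g (x + y) - g x - q)| ≤ L * ‖y‖ + |D| * t :=
      (abs_add_le _ _).trans (add_le_add e6 e2')
    calc |p| * |q + (g (x + y) - g x - q)| ≤ (B * ‖y‖) * (L * ‖y‖ + |D| * t) :=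
          mul_le_mul e5 h2 (abs_nonneg _) (by positivity)
      _ = B * (L * (‖y‖ * ‖y‖) + |D| * ‖y‖ * t) := by ring
      _ ≤ _ := by
          refine mul_le_mul_of_nonneg_left (add_le_add (mul_le_mul_of_nonneg_left e4 hL0) ?_) hB0
          exact mul_le_mul_of_nonneg_right (mul_le_mul_of_nonneg_left hyR (abs_nonneg _)) ht0
  refine (abs_add_le _ _).trans ((add_le_add (abs_add_le _ _) le_rfl).trans ?_)
  refine (add_le_add (add_le_add g1 g2) g3).trans (le_of_eq ?_)
  ring

end Pool.Agent.Helper46.DF
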