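import Pool.Agent.Helper46.DF.Ok

/-!
Row VB (project DF).
-/

open Finset MeasureTheory

namespace Pool.Agent.Helper46.DF

open Pool.Agent.Helper67.BT (E PG Sp PG_const PG_add PG_sub PG_mul PG_const_mul PG_pow PG_sum
  PG_inner PG_neg PG_div_const PG_abs)
open Pool.Agent.Helper67.DF

variable {n k : ℕ}

/-- the odd functions `f_l` -/
noncomputable def fl (c : ℝ) (s v : Fin n → ℝ) (a : Fin n → E k) (l : Fin n) (x : E k) : ℝ :=
  ∑ j, inner ℝ (a l) (nv s v a j) * (Pc c (inner ℝ (a j) x) - s j * inner ℝ (a j) x)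

theorem fl_sq (hIG : ST_IG) (hUC : ST_UC) (hWB : ST_WB) (hPB : ST_PB) (hBLL : ST_BLL) {c : ℝ}
    {s v : Fin n → ℝ} {a : Fin n → E k} (P : Pos c s a) (l : Fin n) :
    (Av a (cf (Uc c)) fun x => fl c s v a l x ^ 2) ≤
      2 / 25 * ∑ j, s j * inner ℝ (a l) (nv s v a j) ^ 2 := by
  have O := ok hIG hUC P.c0 P.sp
  have hPF := hUC n c P.c0
  have hs : ∀ l, 0 < s l := s_pos hWB P
  have hP : ∀ t h, |Pc c (t + h) - Pc c t - Wc c t * h| ≤ 66 / 25 * |h| ^ (1 + (1 / 5 : ℝ)) :=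
    (hPB n _ _ _ _ _ _ hPF l).2.2.2.2.2.2.2.2.1
  have h1 := BL_odd hIG hUC hBLL P.c0 P.sp (f := fl c s v a l)
    (b := fun i x => ∑ j, inner ℝ (a l) (nv s v a j) *
      (if i = j then Wc c (inner ℝ (a j) x) - s j else 0))
    (PG_sum _ fun j _ => PG_const_mul _ (PG_sub (O.pgP j) (PG_const_mul _ (PG_inner _))))
    (fun i => PG_sum _ fun j _ => PG_const_mul _ (by
      split_ifs
      · exact PG_sub (O.pgW j) (PG_const _)
      · exact PG_const 0))
    (TH_sum _ fun j _ => TH_const_mul _ (TH_base hP (by norm_num) (by norm_num) (s j) j))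
    fun x => by
      unfold fl
      rw [← Finset.sum_neg_distrib]
      refine Finset.sum_congr rfl fun j _ => ?_
      rw [inner_neg_right, Pc_neg]
      ring
  refine h1.trans ?_
  rw [Finset.mul_sum]
  refine Finset.sum_le_sum fun j _ => ?_
  obtain ⟨_, w1, _⟩ := hWB n k a c j (s j) P.sp P.c0 (P.sd j)
  have pgi : PG fun x : E k => s j / Wc c (inner ℝ (a j) x) := by
    simp only [div_eq_mul_inv]
    exact PG_const_mul _ (O.pgI j)
  have e1 : (fun x : E k => (∑ i, inner ℝ (a l) (nv s v a i) *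
      (if j = i then Wc c (inner ℝ (a i) x) - s i else 0)) ^ 2 * (Wc c (inner ℝ (a j) x))⁻¹) =
      fun x => inner ℝ (a l) (nv s v a j) ^ 2 *
        ((Wc c (inner ℝ (a j) x) - 2 * s j) + s j * (s j / Wc c (inner ℝ (a j) x))) := by
    ext x
    have h2 := (Wc_pos P.c0 (inner ℝ (a j) x)).ne'
    simp only [mul_ite, mul_zero, Finset.sum_ite_eq, Finset.mem_univ, if_true]
    field_simp
    ring
  rw [e1, Av_const_mul, Av_add O.av (PG_sub (O.pgW j) (PG_const _)) (PG_const_mul _ pgi),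
    Av_sub O.av (O.pgW j) (PG_const _), Av_const O.av, Av_const_mul, ← P.sd j]
  have h3 : s j - 2 * s j + s j * (Av a (cf (Uc c)) fun x => s j / Wc c (inner ℝ (a j) x)) ≤
      2 / 25 * s j := by
    have := mul_le_mul_of_nonneg_left w1 (hs j).le
    linarith
  calc inner ℝ (a l) (nv s v a j) ^ 2 * (s j - 2 * s j + s j *
        (Av a (cf (Uc c)) fun x => s j / Wc c (inner ℝ (a j) x)))
      ≤ inner ℝ (a l) (nv s v a j) ^ 2 * (2 / 25 * s j) :=
        mul_le_mul_of_nonneg_left h3 (sq_nonneg _)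
    _ = _ := by ring

theorem rr_eq {c : ℝ} {s v : Fin n → ℝ} {a : Fin n → E k} (hi : Iso s a) (x : E k) :
    rr c s v a x = ∑ j, (Pc c (inner ℝ (a j) x) - s j * inner ℝ (a j) x) *
      inner ℝ (nv s v a j) x := by
  unfold rr
  rw [← sub_zero (∑ l, Pc c (inner ℝ (a l) x) * inner ℝ (nv s v a l) x), ← iso_nv hi x x,
    ← Finset.sum_sub_distrib]
  refine Finset.sum_congr rfl fun j _ => ?_
  ring

/-- the first part of the coefficients -/
theorem gl_sq (hIG : ST_IG) (hUC : ST_UC) (hWB : ST_WB) (hCR : ST_CR) (hLM : ST_LM) {c : ℝ}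
    {s : Fin n → ℝ} {a : Fin n → E k} (P : Pos c s a) (l : Fin n) (N : E k) :
    (Av a (cf (Uc c)) fun x => (Wc c (inner ℝ (a l) x) / s l - 1) ^ 2 * inner ℝ N x ^ 2) ≤
      3742 / 10000 * ‖N‖ ^ 2 := by
  have O := ok hIG hUC P.c0 P.sp
  have hPF := hUC n c P.c0
  have pgq : PG fun x : E k => (Wc c (inner ℝ (a l) x) / s l - 1) ^ 2 :=
    PG_pow (PG_sub (PG_div_const (O.pgW l) _) (PG_const _)) 2
  have h1 := Av_CS O.av pgq (PG_pow (PG_inner N) 2)
  simp only [← pow_mul] at h1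
  obtain ⟨_, _, _, _, w4⟩ := hWB n k a c l (s l) P.sp P.c0 (P.sd l)
  have h2 := (hLM n k a _ _ _ _ _ _ N P.sp hPF).2
  have h3 := (hCR n k a c s N P).2
  have h3' := (hCR n k a c s N P).1
  set A := Av a (cf (Uc c)) fun x => (Wc c (inner ℝ (a l) x) / s l - 1) ^ 2 * inner ℝ N x ^ 2
  set B := Av a (cf (Uc c)) fun x => inner ℝ N x ^ 2
  set D := Av a (cf (Uc c)) fun x => inner ℝ N x ^ 4
  set F := Av a (cf (Uc c)) fun x => (Wc c (inner ℝ (a l) x) / s l - 1) ^ 4
  have hN : 0 ≤ ‖N‖ ^ 2 := sq_nonneg _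
  have hD : D ≤ 6 * (27 / 25 * ‖N‖ ^ 2) ^ 2 := by
    refine h2.trans ?_
    have : B ^ 2 ≤ (27 / 25 * ‖N‖ ^ 2) ^ 2 := pow_le_pow_left₀ (hN.trans h3') h3 2
    linarith
  have hD0 : 0 ≤ D := Av_nonneg O.av fun x => by positivity
  have h4 : A ^ 2 ≤ (3742 / 10000 * ‖N‖ ^ 2) ^ 2 := by
    have h5 : A ^ 2 ≤ F * D := h1
    calc A ^ 2 ≤ F * D := h5
      _ ≤ 1 / 50 * D := mul_le_mul_of_nonneg_right w4 hD0
      _ ≤ 1 / 50 * (6 * (27 / 25 * ‖N‖ ^ 2) ^ 2) := by linarith
      _ = (6 / 50 * (27 / 25) ^ 2) * (‖N‖ ^ 2) ^ 2 := by ring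
      _ ≤ (3742 / 10000) ^ 2 * (‖N‖ ^ 2) ^ 2 :=
          mul_le_mul_of_nonneg_right (by norm_num) (sq_nonneg _)
      _ = _ := by ring
  exact le_of_sq_le_sq h4 (by positivity)
where
  le_of_sq_le_sq {x y : ℝ} (h : x ^ 2 ≤ y ^ 2) (hy : 0 ≤ y) : x ≤ y := abs_le_of_sq_le_sq' h hy |>.2

theorem st_VB (hIG : ST_IG) (hUC : ST_UC) (hWB : ST_WB) (hPB : ST_PB) (hBLL : ST_BLL)
    (hEBL : ST_EBL) (hCR : ST_CR) (hLM : ST_LM) : ST_VB := by
  intro n k a c s v P
  have O := ok hIG hUC P.c0 P.sp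
  have hPF := hUC n c P.c0
  have hs : ∀ l, 0 < s l := s_pos hWB P
  have pgB : ∀ j, PG fun x : E k => Pc c (inner ℝ (a j) x) - s j * inner ℝ (a j) x := fun j =>
    PG_sub (O.pgP j) (PG_const_mul _ (PG_inner _))
  have pgW : ∀ j, PG fun x : E k => Wc c (inner ℝ (a j) x) - s j := fun j =>
    PG_sub (O.pgW j) (PG_const _)
  -- the coefficients
  set b : Fin n → E k → ℝ := fun l x => ∑ j, ((Pc c (inner ℝ (a j) x) - s j * inner ℝ (a j) x) *
    (s l * inner ℝ (a l) (nv s v a j)) + inner ℝ (nv s v a j) x *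
      (if l = j then Wc c (inner ℝ (a j) x) - s j else 0)) with hb
  have hb' : ∀ l x, b l x = (Wc c (inner ℝ (a l) x) - s l) * inner ℝ (nv s v a l) x +
      s l * fl c s v a l x := by
    intro l x
    rw [hb]
    simp only [Finset.sum_add_distrib]
    rw [add_comm]
    congr 1
    · simp only [mul_ite, mul_zero, Finset.sum_ite_eq, Finset.mem_univ, if_true]
      ring
    · unfold fl
      rw [Finset.mul_sum]
      refine Finset.sum_congr rfl fun j _ => ?_
      ring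
  have pgite : ∀ l j, PG fun x : E k => (if l = j then Wc c (inner ℝ (a j) x) - s j else 0) := by
    intro l j
    split_ifs
    · exact pgW j
    · exact PG_const 0
  have pgb : ∀ l, PG (b l) := fun l => PG_sum _ fun j _ =>
    PG_add (PG_mul (pgB j) (PG_const _)) (PG_mul (PG_inner _) (pgite l j))
  have pgf : ∀ l, PG (fl c s v a l) := fun l =>
    PG_sum _ fun j _ => PG_const_mul _ (pgB j)
  have hTH : TH a (1 / 5) (rr c s v a) b := by
    have h1 : rr c s v a = fun x => ∑ j, (Pc c (inner ℝ (a j) x) - s j * inner ℝ (a j) x) *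
        inner ℝ (nv s v a j) x := funext fun x => rr_eq P.iso x
    rw [h1]
    refine TH_sum _ fun j _ => ?_
    have hP : ∀ t h, |Pc c (t + h) - Pc c t - Wc c t * h| ≤ 66 / 25 * |h| ^ (1 + (1 / 5 : ℝ)) :=
      (hPB n _ _ _ _ _ _ hPF j).2.2.2.2.2.2.2.2.1
    exact TH_mul (by norm_num) (TH_base hP (by norm_num) (by norm_num) (s j) j)
      (TH_lin P.iso _) (pgB j).1 (PG_inner _).1 (fun l => (pgite l j).1)
      fun l => continuous_const
  have pgr : PG (rr c s v a) := PG_sum _ fun l _ => PG_mul (O.pgP l) (PG_inner _)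
  have h1 := hEBL n k a _ _ _ _ _ _ (rr c s v a) b P.sp hPF pgr pgb hTH
    (fun x => by
      unfold rr
      refine Finset.sum_congr rfl fun l _ => ?_
      rw [inner_neg_right, inner_neg_right, Pc_neg]
      ring)
    fun l x => by
      rw [hb', hb']
      have h2 : fl c s v a l (-x) = -fl c s v a l x := by
        unfold fl
        rw [← Finset.sum_neg_distrib]
        refine Finset.sum_congr rfl fun j _ => ?_
        rw [inner_neg_right, Pc_neg]
        ring
      rw [h2, inner_neg_right, inner_neg_right, Wc_neg]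
      ring
  have hZ := O.av.2
  -- divide by the square of the total mass
  have h2 : (Av a (cf (Uc c)) fun x => rr c s v a x ^ 2) - Av a (cf (Uc c)) (rr c s v a) ^ 2 ≤
      ∑ l, (Av a (cf (Uc c)) fun x => b l x ^ 2) *
        Av a (cf (Uc c)) fun x => (Wc c (inner ℝ (a l) x))⁻¹ := by
    unfold Av
    set Z := J a (cf (Uc c)) fun _ => 1
    have e1 : ∀ p q : ℝ, p / Z - (q / Z) ^ 2 = (Z * p - q ^ 2) / Z ^ 2 := by
      intro p q
      field_simp
    have e2 : ∀ p q : ℝ, p / Z * (q / Z) = p * q / Z ^ 2 := by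
      intro p q
      field_simp
    simp only [e1, e2]
    rw [← Finset.sum_div]
    exact div_le_div_of_nonneg_right h1 (sq_nonneg _)
  refine h2.trans ?_
  have h3 : ∀ l, (Av a (cf (Uc c)) fun x => b l x ^ 2) *
      (Av a (cf (Uc c)) fun x => (Wc c (inner ℝ (a l) x))⁻¹) ≤
      27 / 25 * (3 / 2 * (3742 / 10000)) * (s l * ‖nv s v a l‖ ^ 2) +
        27 / 25 * 3 * (2 / 25) * (s l * ∑ j, s j * inner ℝ (a l) (nv s v a j) ^ 2) := by
    intro l
    have g1 := gl_sq hIG hUC hWB hCR hLM P l (nv s v a l)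
    have g2 := fl_sq hIG hUC hWB hPB hBLL (v := v) P l
    have g3 := Av_inv hWB P l
    have pg1 : PG fun x : E k =>
        (Wc c (inner ℝ (a l) x) / s l - 1) ^ 2 * inner ℝ (nv s v a l) x ^ 2 :=
      PG_mul (PG_pow (PG_sub (PG_div_const (O.pgW l) _) (PG_const _)) 2) (PG_pow (PG_inner _) 2)
    have g4 : (Av a (cf (Uc c)) fun x => b l x ^ 2) ≤
        s l ^ 2 * (3 / 2 * (Av a (cf (Uc c)) fun x =>
          (Wc c (inner ℝ (a l) x) / s l - 1) ^ 2 * inner ℝ (nv s v a l) x ^ 2) +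
        3 * Av a (cf (Uc c)) fun x => fl c s v a l x ^ 2) := by
      rw [← Av_const_mul, ← Av_const_mul, ← Av_add O.av (PG_const_mul _ pg1)
        (PG_const_mul _ (PG_pow (pgf l) 2)), ← Av_const_mul]
      refine Av_mono O.av (PG_pow (pgb l) 2) (PG_const_mul _ (PG_add (PG_const_mul _ pg1)
        (PG_const_mul _ (PG_pow (pgf l) 2)))) fun x => ?_
      rw [hb']
      have g5 : Wc c (inner ℝ (a l) x) - s l = s l * (Wc c (inner ℝ (a l) x) / s l - 1) := by
        have := (hs l).ne'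
        field_simp
      rw [g5]
      have g6 : (s l * (Wc c (inner ℝ (a l) x) / s l - 1) * inner ℝ (nv s v a l) x +
          s l * fl c s v a l x) ^ 2 = s l ^ 2 * ((Wc c (inner ℝ (a l) x) / s l - 1) *
            inner ℝ (nv s v a l) x + fl c s v a l x) ^ 2 := by ring
      rw [g6]
      refine mul_le_mul_of_nonneg_left ?_ (sq_nonneg _)
      have g7 : ∀ p q : ℝ, (p + q) ^ 2 ≤ 3 / 2 * p ^ 2 + 3 * q ^ 2 := fun p q => by
        nlinarith [sq_nonneg (p - 2 * q)]
      refine (g7 _ _).trans (le_of_eq ?_)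
      ring
    set I := Av a (cf (Uc c)) fun x => (Wc c (inner ℝ (a l) x))⁻¹ with hI
    have hI0 : 0 ≤ I := Av_nonneg O.av fun x => (inv_pos.2 (Wc_pos P.c0 _)).le
    set G := Av a (cf (Uc c)) fun x =>
      (Wc c (inner ℝ (a l) x) / s l - 1) ^ 2 * inner ℝ (nv s v a l) x ^ 2
    set F := Av a (cf (Uc c)) fun x => fl c s v a l x ^ 2
    have hG0 : 0 ≤ G := Av_nonneg O.av fun x => by positivity
    have hF0 : 0 ≤ F := Av_nonneg O.av fun x => by positivity
    calc (Av a (cf (Uc c)) fun x => b l x ^ 2) * I ≤ s l ^ 2 * (3 / 2 * G + 3 * F) * I :=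
          mul_le_mul_of_nonneg_right g4 hI0
      _ = s l * (3 / 2 * G + 3 * F) * (s l * I) := by ring
      _ ≤ s l * (3 / 2 * G + 3 * F) * (27 / 25) :=
          mul_le_mul_of_nonneg_left g3 (mul_nonneg (hs l).le (by positivity))
      _ ≤ s l * (3 / 2 * (3742 / 10000 * ‖nv s v a l‖ ^ 2) +
          3 * (2 / 25 * ∑ j, s j * inner ℝ (a l) (nv s v a j) ^ 2)) * (27 / 25) := by
          refine mul_le_mul_of_nonneg_right (mul_le_mul_of_nonneg_left ?_ (hs l).le) (by norm_num)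
          linarith
      _ = _ := by ring
  refine (Finset.sum_le_sum fun l _ => h3 l).trans ?_
  rw [Finset.sum_add_distrib, ← Finset.mul_sum, ← Finset.mul_sum, iso_swap P.iso]
  have h4 : 0 ≤ NN s v a := NN_nonneg hs
  have h5 : ∑ l, s l * ‖nv s v a l‖ ^ 2 = NN s v a := rfl
  rw [h5]
  nlinarith

end Pool.Agent.Helper46.DF
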